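import Pool.Agent.Helper70.EQ.Goals
import Pool.Agent.Helper83.KN.LP

/-!
# Project EQ (MP_20ee5e_ag), packet LN: the length of a column is finite and convex
-/

open MeasureTheory Set

namespace Pool.Agent.Helper8.EQ.LN

open Pool.Agent.Helper70.KN

variable {N : ℕ}

theorem len_ne_top (hBD : S_BD) (V : Finset (Fin N → ℕ)) (hV : Convenient V) (i : Fin N)
    (x : Fin N → ℝ) (hx : 0 ≤ x) : len V i x ≠ ⊤ := by
  obtain ⟨M, hM, h⟩ := hBD N V hV
  have hsub : {t : ℝ | 0 ≤ t ∧ Function.update x i t ∉ newton V} ⊆ Icc 0 M := by
    rintro t ⟨ht0, ht⟩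
    refine ⟨ht0, ?_⟩
    have h0 : 0 ≤ Function.update x i t := by
      intro j
      by_cases hj : j = i
      · subst hj
        simpa using ht0
      · simpa [Function.update_of_ne hj] using hx j
    have := h _ h0 ht i
    rw [Function.update_self] at this
    exact this.le
  have hle := measure_mono (μ := volume) hsub
  unfold len
  refine ne_top_of_le_ne_top ?_ hle
  rw [Real.volume_Icc]
  exact ENNReal.ofReal_ne_top

theorem len_le (hCL : S_CL) (V : Finset (Fin N → ℕ)) (i : Fin N) (x : Fin N → ℝ) (p : ℝ)
    (hp : Function.update x i p ∈ newton V) : len V i x ≤ ENNReal.ofReal p := by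
  have hsub : {t : ℝ | 0 ≤ t ∧ Function.update x i t ∉ newton V} ⊆ Icc 0 p := by
    rintro t ⟨ht0, ht⟩
    refine ⟨ht0, ?_⟩
    by_contra hcon
    push Not at hcon
    refine ht ((hCL N V).2.2 ?_ hp)
    intro j
    by_cases hj : j = i
    · subst hj
      simpa using hcon.le
    · simp [Function.update_of_ne hj]
  have hle := measure_mono (μ := volume) hsub
  unfold len
  refine hle.trans ?_
  rw [Real.volume_Icc, sub_zero]

theorem t (hCL : S_CL) (hBD : S_BD) : Pool.Agent.Helper70.EQ.G_LN := by
  intro N V hV i a hai z hz
  have hnn : ∀ s : ℝ, 0 ≤ s → 0 ≤ Function.update z a s := by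
    intro s hs j
    by_cases hj : j = a
    · subst hj
      simpa using hs
    · simpa [Function.update_of_ne hj] using hz j
  have hfin : ∀ s : ℝ, 0 ≤ s → len V i (Function.update z a s) ≠ ⊤ := fun s hs =>
    len_ne_top hBD V hV i _ (hnn s hs)
  refine ⟨hfin, convex_Ici 0, ?_⟩
  intro s hs s' hs' α β hα hβ hαβ
  rw [mem_Ici] at hs hs'
  simp only [smul_eq_mul]
  set A := (len V i (Function.update z a s)).toReal with hA
  set B := (len V i (Function.update z a s')).toReal with hB
  have hA0 : 0 ≤ A := ENNReal.toReal_nonneg
  have hB0 : 0 ≤ B := ENNReal.toReal_nonneg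
  have key : ∀ η : ℝ, 0 < η →
      (len V i (Function.update z a (α * s + β * s'))).toReal ≤ α * A + β * B + η := by
    intro η hη
    have h1 : Function.update (Function.update z a s) i (A + η) ∈ newton V := by
      apply Pool.Agent.Helper83.KN.LP.mem_of_lt hCL V i _ _ (by linarith)
      rw [ENNReal.lt_ofReal_iff_toReal_lt (hfin s hs)]
      linarith
    have h2 : Function.update (Function.update z a s') i (B + η) ∈ newton V := by
      apply Pool.Agent.Helper83.KN.LP.mem_of_lt hCL V i _ _ (by linarith)
      rw [ENNReal.lt_ofReal_iff_toReal_lt (hfin s' hs')]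
      linarith
    have h3 := (hCL N V).2.1 h1 h2 hα hβ hαβ
    have h4 : α • Function.update (Function.update z a s) i (A + η) +
        β • Function.update (Function.update z a s') i (B + η) =
        Function.update (Function.update z a (α * s + β * s')) i (α * A + β * B + η) := by
      funext j
      by_cases hj : j = i
      · subst hj
        simp only [Pi.add_apply, Pi.smul_apply, Function.update_self, smul_eq_mul]
        have : η = (α + β) * η := by rw [hαβ, one_mul]
        linear_combination (-1 : ℝ) * this
      · by_cases hja : j = a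
        · subst hja
          simp only [Pi.add_apply, Pi.smul_apply, Function.update_of_ne hj, Function.update_self,
            smul_eq_mul]
        · simp only [Pi.add_apply, Pi.smul_apply, Function.update_of_ne hj,
            Function.update_of_ne hja, smul_eq_mul]
          linear_combination z j * hαβ
    rw [h4] at h3
    have h5 := len_le hCL V i _ _ h3
    have h6 := ENNReal.toReal_mono ENNReal.ofReal_ne_top h5
    rwa [ENNReal.toReal_ofReal (by positivity)] at h6
  exact le_of_forall_pos_le_add key

end Pool.Agent.Helper8.EQ.LN
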